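import Pool.Agent.helper2.Bis.Defs

set_option autoImplicit false

/-!
# The number of edges across a partition (MP_1e54c0_co, NearOrExact)
-/

namespace Pool.Agent.helper64.NO

open Finset Pool.Agent.helper2.Bis

/-- the energy of a sign vector in terms of the edges across -/
theorem cut_eq {V : Type} [Fintype V] [DecidableEq V] (R : V → V → Prop)
    (hsymm : ∀ u v, R u v → R v u) (z : V → ℝ) (hz : ∀ v, z v = 1 ∨ z v = -1) (A : Finset V)
    (hA : ∀ v, v ∈ A ↔ z v = 1) :
    ∑ u, z u * ∑ v ∈ nb R u, z v =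
      ∑ u, (dg R u : ℝ) - 4 * ∑ u ∈ A, ((nb R u \ A).card : ℝ) := by
  classical
  have hne : ∀ v, v ∉ A ↔ z v = -1 := by
    intro v
    rw [hA]
    rcases hz v with h | h
    · rw [h]; norm_num
    · rw [h]; norm_num
  -- pointwise
  have h1 : ∀ u v, (if R u v then z u * z v else 0) =
      (if R u v then (1 : ℝ) else 0) - 2 * (if (u ∈ A ∧ R u v ∧ v ∉ A) then (1 : ℝ) else 0) -
        2 * (if (v ∈ A ∧ R v u ∧ u ∉ A) then (1 : ℝ) else 0) := by
    intro u v
    by_cases hR : R u v
    · have hR' := hsymm u v hR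
      rcases hz u with hu | hu <;> rcases hz v with hv | hv
      · have h1 := (hA u).2 hu
        have h2 := (hA v).2 hv
        simp [hR, hR', h1, h2, hu, hv]
      · have h1 := (hA u).2 hu
        have h2 := (hne v).2 hv
        simp [hR, hR', h1, h2, hu, hv]
        norm_num
      · have h1 := (hne u).2 hu
        have h2 := (hA v).2 hv
        simp [hR, hR', h1, h2, hu, hv]
        norm_num
      · have h1 := (hne u).2 hu
        have h2 := (hne v).2 hv
        simp [hR, hR', h1, h2, hu, hv]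
    · have hR' : ¬ R v u := fun h => hR (hsymm v u h)
      simp [hR, hR']
  have h2 : ∀ u, z u * ∑ v ∈ nb R u, z v = ∑ v, (if R u v then z u * z v else 0) := by
    intro u
    rw [Finset.mul_sum]
    unfold nb
    rw [Finset.sum_filter]
  have h3 : ∀ u, (dg R u : ℝ) = ∑ v, (if R u v then (1 : ℝ) else 0) := by
    intro u
    rw [Finset.sum_boole]
    unfold dg nb
    rfl
  have h4 : ∑ u ∈ A, ((nb R u \ A).card : ℝ) =
      ∑ u, ∑ v, (if (u ∈ A ∧ R u v ∧ v ∉ A) then (1 : ℝ) else 0) := by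
    rw [← Finset.sum_filter_add_sum_filter_not univ (fun u => u ∈ A)]
    have e1 : ∑ u with u ∉ A, ∑ v, (if (u ∈ A ∧ R u v ∧ v ∉ A) then (1 : ℝ) else 0) = 0 := by
      refine Finset.sum_eq_zero fun u hu => Finset.sum_eq_zero fun v _ => ?_
      rw [if_neg]
      intro h
      exact (Finset.mem_filter.1 hu).2 h.1
    have e2 : (univ.filter (fun u => u ∈ A)) = A := by
      ext u
      simp
    rw [e1, add_zero, e2]
    refine Finset.sum_congr rfl fun u hu => ?_
    rw [Finset.sum_boole]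
    congr 2
    ext v
    simp only [Finset.mem_sdiff, mem_nb, Finset.mem_filter, Finset.mem_univ, true_and]
    tauto
  have h5 : ∑ u, ∑ v, (if (v ∈ A ∧ R v u ∧ u ∉ A) then (1 : ℝ) else 0) =
      ∑ u, ∑ v, (if (u ∈ A ∧ R u v ∧ v ∉ A) then (1 : ℝ) else 0) := Finset.sum_comm
  calc ∑ u, z u * ∑ v ∈ nb R u, z v
      = ∑ u, ∑ v, (if R u v then z u * z v else 0) := Finset.sum_congr rfl fun u _ => h2 u
    _ = ∑ u, ∑ v, ((if R u v then (1 : ℝ) else 0) -
          2 * (if (u ∈ A ∧ R u v ∧ v ∉ A) then (1 : ℝ) else 0) -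
          2 * (if (v ∈ A ∧ R v u ∧ u ∉ A) then (1 : ℝ) else 0)) :=
        Finset.sum_congr rfl fun u _ => Finset.sum_congr rfl fun v _ => h1 u v
    _ = _ := by
        simp only [Finset.sum_sub_distrib, ← Finset.mul_sum]
        rw [h5, ← h4, Finset.sum_congr rfl fun u _ => h3 u]
        ring

/-- If all vertices have energy at least `-t` and those of `A₁` at least `s`, the number of edges
across is bounded away from one half of all edges. -/
theorem cut_count {V : Type} [Fintype V] [DecidableEq V] (R : V → V → Prop)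
    (hsymm : ∀ u v, R u v → R v u) (z : V → ℝ) (hz : ∀ v, z v = 1 ∨ z v = -1) (A : Finset V)
    (hA : ∀ v, v ∈ A ↔ z v = 1) (J : ℝ) (t s : ℝ) (A₁ : Finset V)
    (h1 : ∀ u, -t ≤ J * z u * ∑ v ∈ nb R u, z v)
    (h2 : ∀ u ∈ A₁, s ≤ J * z u * ∑ v ∈ nb R u, z v) :
    (s + t) * A₁.card - t * Fintype.card V ≤
      J * (∑ u, (dg R u : ℝ) - 4 * ∑ u ∈ A, ((nb R u \ A).card : ℝ)) := by
  classical
  rw [← cut_eq R hsymm z hz A hA, Finset.mul_sum]
  have h3 : ∑ u, ((s + t) * (if u ∈ A₁ then (1 : ℝ) else 0) - t) ≤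
      ∑ u, J * (z u * ∑ v ∈ nb R u, z v) := by
    refine Finset.sum_le_sum fun u _ => ?_
    by_cases hu : u ∈ A₁
    · rw [if_pos hu]
      have := h2 u hu
      linarith
    · rw [if_neg hu]
      have := h1 u
      linarith
  refine le_trans (le_of_eq ?_) h3
  rw [Finset.sum_sub_distrib, ← Finset.mul_sum, Finset.sum_boole, Finset.sum_const,
    Finset.card_univ, nsmul_eq_mul]
  have e : (univ.filter (fun u => u ∈ A₁)) = A₁ := by
    ext u
    simp
  rw [e]
  ring

end Pool.Agent.helper64.NO
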