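import Pool.Agent.helper64.NO.Cut

set_option autoImplicit false

/-!
# Counting lemmas for `NearOrExact` (MP_1e54c0_co)
-/

namespace Pool.Agent.helper64.NO

open Finset Pool.Agent.helper2.Bis

theorem nb_adj {V : Type} [Fintype V] [DecidableEq V] (R : SimpleGraph V) [DecidableRel R.Adj]
    (v : V) : nb R.Adj v = R.neighborFinset v := by
  ext w
  rw [mem_nb, SimpleGraph.mem_neighborFinset]

theorem dg_adj {V : Type} [Fintype V] [DecidableEq V] (R : SimpleGraph V) [DecidableRel R.Adj]
    (v : V) : dg R.Adj v = R.degree v := by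
  unfold dg
  rw [nb_adj, SimpleGraph.card_neighborFinset_eq_degree]

theorem pm_of {V : Type} [DecidableEq V] {A : Finset V} {z : V → ℝ}
    (hz : ∀ v, z v = if v ∈ A then 1 else -1) : ∀ v, z v = 1 ∨ z v = -1 := by
  intro v
  rw [hz v]
  split_ifs
  · exact Or.inl rfl
  · exact Or.inr rfl

theorem mem_iff_of {V : Type} [DecidableEq V] {A : Finset V} {z : V → ℝ}
    (hz : ∀ v, z v = if v ∈ A then 1 else -1) : ∀ v, v ∈ A ↔ z v = 1 := by
  intro v
  rw [hz v]
  split_ifs with h
  · simp [h]
  · simp only [h, false_iff]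
    norm_num

/-- the energy of a partition of a graph -/
theorem cut_sum {V : Type} [Fintype V] [DecidableEq V] (R : SimpleGraph V) [DecidableRel R.Adj]
    (A : Finset V) (z : V → ℝ) (hz : ∀ v, z v = if v ∈ A then 1 else -1) :
    ∑ u, z u * ∑ v ∈ nb R.Adj u, z v =
      2 * (R.edgeFinset.card : ℝ) - 4 * ∑ v ∈ A, ((R.neighborFinset v \ A).card : ℝ) := by
  classical
  rw [cut_eq R.Adj (fun u v h => h.symm) z (pm_of hz) A (mem_iff_of hz)]
  have h1 : ∑ u, (dg R.Adj u : ℝ) = 2 * (R.edgeFinset.card : ℝ) := by
    have h2 := R.sum_degrees_eq_twice_card_edges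
    have h3 : ∑ u, (dg R.Adj u : ℝ) = ((∑ u, R.degree u : ℕ) : ℝ) := by
      push_cast
      exact Finset.sum_congr rfl fun u _ => by rw [dg_adj]
    rw [h3, h2]
    push_cast
    ring
  rw [h1]
  congr 2
  exact Finset.sum_congr rfl fun u _ => by rw [nb_adj]

/-- the number of edges of an edge-minimal graph -/
theorem edges_le {V : Type} [Fintype V] [DecidableEq V] (R : SimpleGraph V) [DecidableRel R.Adj]
    (m : ℕ) (hmin : ∀ u v, R.Adj u v → R.degree u = m ∨ R.degree v = m) :
    R.edgeFinset.card ≤ m * Fintype.card V := by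
  classical
  have h2 := R.sum_degrees_eq_twice_card_edges
  have hd : ∀ u, R.degree u = ∑ v, (if R.Adj u v then 1 else 0) := by
    intro u
    rw [← SimpleGraph.card_neighborFinset_eq_degree, Finset.sum_boole]
    simp only [Nat.cast_id]
    congr 1
    ext v
    simp
  have h1 : ∀ u v, (if R.Adj u v then 1 else 0) ≤
      (if R.degree u = m then (if R.Adj u v then 1 else 0) else 0) +
        (if R.degree v = m then (if R.Adj v u then 1 else 0) else 0) := by
    intro u v
    by_cases h : R.Adj u v
    · have h' := h.symm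
      rcases hmin u v h with h3 | h3
      · simp [h, h', h3]
      · simp [h, h', h3]
    · simp [h]
  have h3 : ∑ u, R.degree u ≤ ∑ u, ∑ v,
      ((if R.degree u = m then (if R.Adj u v then 1 else 0) else 0) +
        (if R.degree v = m then (if R.Adj v u then 1 else 0) else 0)) := by
    refine Finset.sum_le_sum fun u _ => ?_
    exact (hd u).le.trans (Finset.sum_le_sum fun v _ => h1 u v)
  have h4 : ∑ u : V, ∑ v, ((if R.degree u = m then (if R.Adj u v then 1 else 0) else 0) +
        (if R.degree v = m then (if R.Adj v u then 1 else 0) else 0)) =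
      ∑ u : V, ∑ v, (if R.degree u = m then (if R.Adj u v then 1 else 0) else 0) +
        ∑ u : V, ∑ v, (if R.degree u = m then (if R.Adj u v then 1 else 0) else 0) := by
    simp only [Finset.sum_add_distrib]
    congr 1
    exact Finset.sum_comm
  have h5 : ∑ u : V, ∑ v, (if R.degree u = m then (if R.Adj u v then 1 else 0) else 0) ≤
      m * Fintype.card V := by
    have h6 : ∀ u ∈ (univ : Finset V),
        ∑ v, (if R.degree u = m then (if R.Adj u v then 1 else 0) else 0) ≤ m := by
      intro u _
      by_cases h : R.degree u = m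
      · simp only [h, if_true]
        rw [← hd u, h]
      · simp [h]
    refine (Finset.sum_le_sum h6).trans ?_
    rw [Finset.sum_const, Finset.card_univ, smul_eq_mul, mul_comm]
  omega

/-- the number of hubs of an edge-minimal graph -/
theorem hubs_le {V : Type} [Fintype V] [DecidableEq V] (R : V → V → Prop)
    (hsymm : ∀ u v, R u v → R v u) (hirr : ∀ u, ¬ R u u) (m : ℕ)
    (hmin : ∀ u v, R u v → dg R u = m ∨ dg R v = m) (D : ℕ) (hmD : m ≤ D) :
    D * (univ.filter (fun v => D < dg R v)).card ≤ m * Fintype.card V := by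
  classical
  have _ := hirr
  set H : Finset V := univ.filter (fun v => D < dg R v) with hH
  have h1 : D * H.card ≤ ∑ h ∈ H, dg R h := by
    have := Finset.card_nsmul_le_sum H (fun h => dg R h) D (fun h hh => by
      rw [hH, Finset.mem_filter] at hh
      exact hh.2.le)
    rw [smul_eq_mul, mul_comm] at this
    exact this
  have h2 : ∑ h ∈ H, dg R h = ∑ v, (H.filter (fun h => R h v)).card := by
    have h3 : ∀ h, dg R h = ∑ v, (if R h v then 1 else 0) := by
      intro h
      rw [Finset.sum_boole]
      simp only [Nat.cast_id]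
      unfold dg nb
      congr
    rw [Finset.sum_congr rfl fun h _ => h3 h, Finset.sum_comm]
    refine Finset.sum_congr rfl fun v _ => ?_
    rw [Finset.sum_boole]
    simp only [Nat.cast_id]
  have h3 : ∀ v ∈ (univ : Finset V), (H.filter (fun h => R h v)).card ≤ m := by
    intro v _
    rcases Finset.eq_empty_or_nonempty (H.filter (fun h => R h v)) with h4 | ⟨h, hh⟩
    · rw [h4]
      simp
    · rw [Finset.mem_filter, hH, Finset.mem_filter] at hh
      have h5 : dg R v = m := by
        rcases hmin h v hh.2 with h6 | h6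
        · have := hh.1.2
          omega
        · exact h6
      rw [← h5]
      unfold dg
      refine Finset.card_le_card fun u hu => ?_
      rw [Finset.mem_filter] at hu
      rw [mem_nb]
      exact hsymm u v hu.2
  rw [h2] at h1
  refine h1.trans ((Finset.sum_le_sum h3).trans ?_)
  rw [Finset.sum_const, Finset.card_univ, smul_eq_mul, mul_comm]

/-- neighbours in the own part and in the other part, in terms of the field -/
theorem own_eq {V : Type} [Fintype V] [DecidableEq V] (R : SimpleGraph V) [DecidableRel R.Adj]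
    (A : Finset V) (z : V → ℝ) (hz : ∀ v, z v = if v ∈ A then 1 else -1) (v : V) (hv : v ∈ A) :
    ((R.neighborFinset v ∩ A).card : ℝ) =
        ((R.degree v : ℝ) + z v * ∑ w ∈ nb R.Adj v, z w) / 2 ∧
      ((R.neighborFinset v \ A).card : ℝ) =
        ((R.degree v : ℝ) - z v * ∑ w ∈ nb R.Adj v, z w) / 2 := by
  classical
  have h1 : z v = 1 := by rw [hz v, if_pos hv]
  have h2 : ∑ w ∈ R.neighborFinset v, z w =
      ((R.neighborFinset v ∩ A).card : ℝ) - ((R.neighborFinset v \ A).card : ℝ) := by
    rw [← Finset.sum_inter_add_sum_sdiff (R.neighborFinset v) A]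
    have e1 : ∑ w ∈ R.neighborFinset v ∩ A, z w = ((R.neighborFinset v ∩ A).card : ℝ) := by
      rw [Finset.sum_congr rfl (g := fun _ => (1 : ℝ)) fun w hw => by
        rw [hz w, if_pos (Finset.mem_inter.1 hw).2], Finset.sum_const, nsmul_eq_mul, mul_one]
    have e2 : ∑ w ∈ R.neighborFinset v \ A, z w = -((R.neighborFinset v \ A).card : ℝ) := by
      rw [Finset.sum_congr rfl (g := fun _ => (-1 : ℝ)) fun w hw => by
        rw [hz w, if_neg (Finset.mem_sdiff.1 hw).2], Finset.sum_const, nsmul_eq_mul]
      ring
    rw [e1, e2]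
    ring
  have h3 : (R.degree v : ℝ) =
      ((R.neighborFinset v ∩ A).card : ℝ) + ((R.neighborFinset v \ A).card : ℝ) := by
    rw [← SimpleGraph.card_neighborFinset_eq_degree, ← Nat.cast_add]
    congr 1
    rw [add_comm]
    exact (Finset.card_sdiff_add_card_inter _ _).symm
  rw [nb_adj, h1, one_mul, h2, h3]
  constructor <;> ring

end Pool.Agent.helper64.NO
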